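import Pool.Agent.MHP.Stmts

set_option autoImplicit false

namespace Pool.Agent.MHP.H6

open Pool.Agent.MHP Pool.Agent.HMT

theorem spl : SplStmt := by
  classical
  intro V _ M _ T₁ T₂ F hd
  unfold tog
  have hE : (Set.toFinite (T₁ ⊔ T₂).edgeSet).toFinset =
      (Set.toFinite T₁.edgeSet).toFinset ∪ (Set.toFinite T₂.edgeSet).toFinset := by
    ext e
    simp only [Set.Finite.mem_toFinset, Finset.mem_union, SimpleGraph.edgeSet_sup, Set.mem_union]
  rw [hE]
  generalize hE₁ : (Set.toFinite T₁.edgeSet).toFinset = E₁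
  generalize hE₂ : (Set.toFinite T₂.edgeSet).toFinset = E₂
  have hdis : Disjoint E₁ E₂ := by
    rw [Finset.disjoint_left]
    intro e h1 h2
    rw [← hE₁, Set.Finite.mem_toFinset] at h1
    rw [← hE₂, Set.Finite.mem_toFinset] at h2
    have h3 : Disjoint T₁.edgeSet T₂.edgeSet := SimpleGraph.disjoint_edgeSet.2 hd
    exact Set.disjoint_left.1 h3 h1 h2
  simp_rw [Finset.smul_sum]
  rw [← Finset.sum_product']
  refine Finset.sum_nbij' (fun Z => (Z ∩ E₁, Z ∩ E₂)) (fun p => p.1 ∪ p.2) ?_ ?_ ?_ ?_ ?_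
  · intro Z _
    rw [Finset.mem_product, Finset.mem_powerset, Finset.mem_powerset]
    exact ⟨Finset.inter_subset_right, Finset.inter_subset_right⟩
  · intro p hp
    rw [Finset.mem_product, Finset.mem_powerset, Finset.mem_powerset] at hp
    rw [Finset.mem_powerset]
    exact Finset.union_subset_union hp.1 hp.2
  · intro Z hZ
    rw [Finset.mem_powerset] at hZ
    change Z ∩ E₁ ∪ Z ∩ E₂ = Z
    rw [← Finset.inter_union_distrib_left]
    exact Finset.inter_eq_left.2 hZ
  · intro p hp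
    rw [Finset.mem_product, Finset.mem_powerset, Finset.mem_powerset] at hp
    have ha : (p.1 ∪ p.2) ∩ E₁ = p.1 := by
      ext e
      simp only [Finset.mem_inter, Finset.mem_union]
      constructor
      · rintro ⟨h | h, h1⟩
        · exact h
        · exact absurd (hp.2 h) (Finset.disjoint_left.1 hdis h1)
      · intro h
        exact ⟨Or.inl h, hp.1 h⟩
    have hb : (p.1 ∪ p.2) ∩ E₂ = p.2 := by
      ext e
      simp only [Finset.mem_inter, Finset.mem_union]
      constructor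
      · rintro ⟨h | h, h1⟩
        · exact absurd h1 (Finset.disjoint_left.1 hdis (hp.1 h))
        · exact h
      · intro h
        exact ⟨Or.inr h, hp.2 h⟩
    change ((p.1 ∪ p.2) ∩ E₁, (p.1 ∪ p.2) ∩ E₂) = p
    rw [ha, hb]
  · intro Z hZ
    rw [Finset.mem_powerset] at hZ
    have h1 : Z ∩ E₁ ∪ Z ∩ E₂ = Z := by
      rw [← Finset.inter_union_distrib_left]
      exact Finset.inter_eq_left.2 hZ
    have h2 : Disjoint (Z ∩ E₁) (Z ∩ E₂) :=
      Finset.disjoint_of_subset_left Finset.inter_subset_right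
        (Finset.disjoint_of_subset_right Finset.inter_subset_right hdis)
    have h3 : Z.card = (Z ∩ E₁).card + (Z ∩ E₂).card := by
      rw [← Finset.card_union_of_disjoint h2, h1]
    have h4 : SimpleGraph.fromEdgeSet ((Z ∩ E₁ : Finset (Sym2 V)) : Set (Sym2 V)) ⊔
        SimpleGraph.fromEdgeSet ((Z ∩ E₂ : Finset (Sym2 V)) : Set (Sym2 V)) =
        SimpleGraph.fromEdgeSet (Z : Set (Sym2 V)) := by
      rw [← SimpleGraph.fromEdgeSet_union, ← Finset.coe_union, h1]
    change ((-1 : ℤ) ^ Z.card) • F (SimpleGraph.fromEdgeSet (Z : Set (Sym2 V))) =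
      ((-1 : ℤ) ^ (Z ∩ E₁).card) • ((-1 : ℤ) ^ (Z ∩ E₂).card) •
        F (SimpleGraph.fromEdgeSet ((Z ∩ E₁ : Finset (Sym2 V)) : Set (Sym2 V)) ⊔
          SimpleGraph.fromEdgeSet ((Z ∩ E₂ : Finset (Sym2 V)) : Set (Sym2 V)))
    rw [h4, h3, pow_add, mul_smul]

end Pool.Agent.MHP.H6
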